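import Pool.Agent.QSX.StmtsB

/-!
# QSX squad, row SMP: polynomials of moderate sequences
-/

set_option autoImplicit false

namespace Pool.Agent.QSX.H25

open Matrix Finset Pool.Agent.QSX

/-- **Row SMP.** -/
theorem smp : SmpStmt := by
  intro S n c c' hc hcc p
  have hc' : ∀ i, S.Md (c' i) := by
    intro i
    have h1 := Scale.Md.add (hc i) (hcc i).md
    have h2 : c i + (fun s => c' i s - c i s) = c' i := by
      funext s
      change c i s + (c' i s - c i s) = c' i s
      ring
    rwa [h2] at h1
  induction p using MvPolynomial.induction_on with
  | C a =>
    constructor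
    · simp only [MvPolynomial.eval_C]
      exact Scale.Md.const S a
    · simp only [MvPolynomial.eval_C, sub_self]
      exact Scale.Sm.zero S
  | add p q hp hq =>
    constructor
    · simp only [map_add]
      exact Scale.Md.add hp.1 hq.1
    · have h1 := Scale.Sm.add hp.2 hq.2
      have h2 : (fun s => MvPolynomial.eval (fun i => c' i s) p -
          MvPolynomial.eval (fun i => c i s) p) + (fun s => MvPolynomial.eval (fun i => c' i s) q -
          MvPolynomial.eval (fun i => c i s) q) =
          fun s => MvPolynomial.eval (fun i => c' i s) (p + q) -
            MvPolynomial.eval (fun i => c i s) (p + q) := by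
        funext s
        simp only [Pi.add_apply, map_add]
        ring
      rwa [h2] at h1
  | mul_X p i hp =>
    constructor
    · simp only [map_mul, MvPolynomial.eval_X]
      exact Scale.Md.mul hp.1 (hc i)
    · have h1 := Scale.Sm.add (Scale.Sm.mul_md (hc' i) hp.2) (Scale.Sm.mul_md hp.1 (hcc i))
      have h2 : (c' i * fun s => MvPolynomial.eval (fun i => c' i s) p -
          MvPolynomial.eval (fun i => c i s) p) +
          ((fun s => MvPolynomial.eval (fun i => c i s) p) * fun s => c' i s - c i s) =
          fun s => MvPolynomial.eval (fun i => c' i s) (p * MvPolynomial.X i) -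
            MvPolynomial.eval (fun i => c i s) (p * MvPolynomial.X i) := by
        funext s
        simp only [Pi.add_apply, Pi.mul_apply, map_mul, MvPolynomial.eval_X]
        ring
      rwa [h2] at h1

end Pool.Agent.QSX.H25
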